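import Pool.Agent.Helper92.BW.GoalsC
import Pool.Agent.Helper38.FR.PTF
import Pool.Agent.Helper62.FR.PTN

/-!
# BW, packet PMA: the algorithm is polynomial time
-/

namespace Pool.Agent.Helper85.BW

open Pool.Agent.Helper81.CC Pool.Agent.Bin Pool.Agent.Helper92.VP Pool.Agent.Helper92.FR
  Pool.Agent.Helper92.BW Pool.Agent.Helper38.FR Pool.Agent.Helper62.FR

variable {α : Type} [ToData α]

theorem pma_gI (k : ℕ) {S : α → Sys} {q : α → ℕ} (hS : PolyTime S) (hq : PolyTime q) :
    PolyTime (fun a => gI k (S a) (q a)) := by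
  unfold gI qc dI
  fun_prop

theorem pma_rootp (k : ℕ) (h4 : PfrStmt) {n G : α → ℕ} {par : α → List ℕ}
    {T : α → List (List BN)} (hn : PolyTime n) (hG : PolyTime G) (hpar : PolyTime par)
    (hT : PolyTime T) : PolyTime (fun a => rootp k (n a) (G a) (par a) (T a)) := by
  have he : PolyTime (fun a => ezero k (G a)) :=
    (h4 k α n n G n n (fun _ => []) (fun _ => []) (fun _ => []) (fun _ => []) hn hn hG hn hn
      (by fun_prop) (by fun_prop) (by fun_prop) (by fun_prop)).2.2.2.2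
  have he2 : PolyTime (fun z : α × ℕ => ezero k (G z.1)) :=
    PolyTime.comp (g := fun a => ezero k (G a)) (f := fun z : α × ℕ => z.1) he (by fun_prop)
  unfold rootp
  apply PolyTime.bn_prod
  apply PolyTime.list_map (by fun_prop)
  fun_prop

theorem pma_volQ (k : ℕ) (h3 : PfoStmt) (h4 : PfrStmt) (h5 : PtaStmt) {n G : α → ℕ}
    {cr : α → List (List Qn × Qn)} {U : α → List (List Qn)} {par : α → List ℕ}
    (hn : PolyTime n) (hG : PolyTime G) (hcr : PolyTime cr) (hU : PolyTime U)
    (hpar : PolyTime par) :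
    PolyTime (fun a => volQ k (n a) (G a) (cr a) (U a) (par a)) := by
  have hf : PolyTime (fun z : α × ℕ => fam (n z.1) (par z.1) (cr z.1) z.2) :=
    (h3 (α × ℕ) (fun z => n z.1) (fun z => z.2) (fun z => par z.1) (fun z => cr z.1)
      (fun _ => ([], Qn.zero)) (by fun_prop) (by fun_prop) (by fun_prop) (by fun_prop)
      (by fun_prop)).1
  have h := h4 k (α × ℕ) (fun z => n z.1) (fun z => z.2) (fun z => G z.1) (fun z => z.2)
    (fun z => z.2) (fun z => U z.1) (fun z => fam (n z.1) (par z.1) (cr z.1) z.2)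
    (fun _ => []) (fun _ => []) (by fun_prop) (by fun_prop) (by fun_prop) (by fun_prop)
    (by fun_prop) (by fun_prop) hf (by fun_prop) (by fun_prop)
  have hfr := h.1
  have hms := h.2.1
  have hF : PolyTime (fun a => (List.range (n a)).map
      fun v => fr (n a) k (U a) (fam (n a) (par a) (cr a) v) v) :=
    PolyTime.list_map (by fun_prop) hfr
  have hT := h5 k α n G cr _ par hn hG hcr hF hpar
  have hR := pma_rootp k h4 hn hG hpar hT
  have hP : PolyTime (fun a => (List.range (n a)).map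
      fun v => Qn.mul (invNat (G a)) (msc (n a) k (U a) (fam (n a) (par a) (cr a) v) v)) := by
    apply PolyTime.list_map (by fun_prop)
    fun_prop
  unfold volQ
  fun_prop

/-- PMA. -/
theorem pma (h1 : ProStmt) (h2 : PriStmt) (h3 : PfoStmt) (h4 : PfrStmt) (h5 : PtaStmt) :
    PmaStmt := by
  intro k
  have hd : PolyTime (fun z : (Sys × List ℕ) × ℕ => z.1.1.1) := by fun_prop
  have hst : PolyTime (fun z : (Sys × List ℕ) × ℕ => stI z.1.1) :=
    PolyTime.comp (g := stI) (f := fun z : (Sys × List ℕ) × ℕ => z.1.1) h2 (by fun_prop)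
  have hr : PolyTime (fun z : (Sys × List ℕ) × ℕ => rowsQ z.1.1) :=
    PolyTime.comp (g := rowsQ) (f := fun z : (Sys × List ℕ) × ℕ => z.1.1) h1.1 (by fun_prop)
  obtain ⟨-, hb, hu, hc⟩ := h1.2 ((Sys × List ℕ) × ℕ) _ _ _ hd hst hr
  have hG : PolyTime (fun z : (Sys × List ℕ) × ℕ => gI k z.1.1 z.2) :=
    pma_gI k (by fun_prop) (by fun_prop)
  have hV := pma_volQ k h3 h4 h5 hd hG hc hu
    (par := fun z : (Sys × List ℕ) × ℕ => z.1.2) (by fun_prop)
  have hW := PT_toRQ hV
  have hA : PolyTime (fun z : (Sys × List ℕ) × ℕ =>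
      (if z.1.1.2.any (fun r => !(Qn.le (ofRQ r.2) Qn.zero)) then ((false, ⟨0⟩, ⟨1⟩) : RQ)
        else (false, ⟨1⟩, ⟨1⟩))) := by
    fun_prop
  exact PolyTime.itep (c := fun z : (Sys × List ℕ) × ℕ => z.1.1.1 = 0) (by fun_prop) hA
    (PolyTime.ite hb (PolyTime.const _) hW)

end Pool.Agent.Helper85.BW
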